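import Pool.Agent.L0h94.SP.StmF
import Pool.Agent.L0h84.SP.TR2

/-!
# Project SP (helper94), part UTW (helper91): the twist by the square of a unit
-/

set_option autoImplicit false
set_option linter.all false

open Polynomial IsDedekindDomain NumberField
open scoped Classical

namespace Pool.Agent.L0h91.SP

open Pool.Agent.N783.PF
open Pool.Agent.L0h94.SP

section fld

variable {K : Type} [Field K]

/-- the substitution -/
noncomputable def sub (D : K) (h : K[X]) : K[X] := h.comp (C D⁻¹ * X)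

theorem sub_sub {D : K} (hD : D ≠ 0) (h : K[X]) : sub D⁻¹ (sub D h) = h := by
  unfold sub
  rw [comp_assoc, mul_comp, C_comp, X_comp, ← mul_assoc, ← C_mul, inv_inv, inv_mul_cancel₀ hD, C_1,
    one_mul, comp_X]

theorem sub_sub' {D : K} (hD : D ≠ 0) (h : K[X]) : sub D (sub D⁻¹ h) = h := by
  have := sub_sub (inv_ne_zero hD) h
  rwa [inv_inv] at this

theorem sub_mul (D : K) (h k : K[X]) : sub D (h * k) = sub D h * sub D k := by
  unfold sub
  rw [mul_comp]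

theorem scale_eq {f : K[X]} {D : K} (hD : D ≠ 0) (h3 : f.natDegree = 3) :
    f.scaleRoots D = C (D ^ 3) * sub D f := by
  have h2 := congrArg (sub D) (Pool.Agent.L0h84.SP.scale_comp f D h3)
  have e : (f.scaleRoots D).comp (C D * X) = sub D⁻¹ (f.scaleRoots D) := by
    unfold sub
    rw [inv_inv]
  rw [e, sub_sub' hD, sub_mul] at h2
  rw [h2]
  unfold sub
  rw [C_comp]

theorem aeval_mk (p q h : K[X]) : aeval (AdjoinRoot.mk p q) h = AdjoinRoot.mk p (h.comp q) := by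
  have h1 := Polynomial.aeval_algHom_apply (AdjoinRoot.mkₐ p : K[X] →ₐ[K] AdjoinRoot p) q h
  rw [← Polynomial.comp_eq_aeval] at h1
  exact h1

theorem root_sub {f : K[X]} {D : K} (hD : D ≠ 0) (h3 : f.natDegree = 3) :
    aeval (AdjoinRoot.mk (f.scaleRoots D) (C D⁻¹ * X)) f = 0 := by
  rw [aeval_mk, AdjoinRoot.mk_eq_zero]
  refine ⟨C ((D ^ 3)⁻¹), ?_⟩
  have h1 : (C ((D ^ 3)⁻¹) * C (D ^ 3) : K[X]) = 1 := by
    rw [← C_mul, inv_mul_cancel₀ (pow_ne_zero _ hD), C_1]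
  rw [scale_eq hD h3]
  show sub D f = _
  linear_combination (-(sub D f)) * h1

/-- the map -/
noncomputable def phi (f : K[X]) {D : K} (hD : D ≠ 0) (h3 : f.natDegree = 3) :
    AdjoinRoot f →ₐ[K] AdjoinRoot (f.scaleRoots D) :=
  AdjoinRoot.liftAlgHom f (Algebra.ofId K _) (AdjoinRoot.mk (f.scaleRoots D) (C D⁻¹ * X))
    (root_sub hD h3)

theorem phi_mk (f : K[X]) {D : K} (hD : D ≠ 0) (h3 : f.natDegree = 3) (h : K[X]) :
    phi f hD h3 (AdjoinRoot.mk f h) = AdjoinRoot.mk (f.scaleRoots D) (sub D h) := by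
  have h1 := AdjoinRoot.liftAlgHom_mk f (Algebra.ofId K (AdjoinRoot (f.scaleRoots D)))
    (AdjoinRoot.mk (f.scaleRoots D) (C D⁻¹ * X)) (root_sub hD h3) h
  rw [Algebra.toRingHom_ofId, ← Polynomial.aeval_def, aeval_mk] at h1
  exact h1

theorem phi_bij (f : K[X]) {D : K} (hD : D ≠ 0) (h3 : f.natDegree = 3) :
    Function.Bijective (phi f hD h3) := by
  constructor
  · rw [injective_iff_map_eq_zero]
    intro x hx
    obtain ⟨h, rfl⟩ := AdjoinRoot.mk_surjective x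
    rw [phi_mk, AdjoinRoot.mk_eq_zero, scale_eq hD h3] at hx
    obtain ⟨t, ht⟩ := hx
    rw [AdjoinRoot.mk_eq_zero]
    refine ⟨C (D ^ 3) * sub D⁻¹ t, ?_⟩
    have h1 := congrArg (sub D⁻¹) ht
    rw [sub_sub hD, sub_mul, sub_mul, sub_sub hD] at h1
    rw [h1]
    have : sub D⁻¹ (C (D ^ 3)) = C (D ^ 3) := by
      unfold sub
      rw [C_comp]
    rw [this]
    ring
  · intro y
    obtain ⟨h, rfl⟩ := AdjoinRoot.mk_surjective y
    exact ⟨AdjoinRoot.mk f (sub D⁻¹ h), by rw [phi_mk, sub_sub' hD]⟩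

/-- the isomorphism -/
theorem exists_equiv (f : K[X]) {D : K} (hD : D ≠ 0) (h3 : f.natDegree = 3) :
    ∃ e : AdjoinRoot f ≃ₐ[K] AdjoinRoot (f.scaleRoots D), ∀ h : K[X],
      e (AdjoinRoot.mk f h) = AdjoinRoot.mk (f.scaleRoots D) (sub D h) :=
  ⟨AlgEquiv.ofBijective (phi f hD h3) (phi_bij f hD h3), fun h => phi_mk f hD h3 h⟩

theorem cl_twist {f h : K[X]} {r : K} (hf : f.Monic) (h3 : f.natDegree = 3) (hr : r ≠ 0)
    (H : Cl K f h) : Cl K (f.scaleRoots (r ^ 2)) (sub (r ^ 2) h) := by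
  refine Pool.Agent.L0h84.SP.trk_mp f (sub (r ^ 2) h) (r ^ 2) r hf h3 hr rfl ?_
  have e : (sub (r ^ 2) h).comp (C (r ^ 2) * X) = h := by
    have h1 := sub_sub (pow_ne_zero 2 hr) h
    have h2 : sub (r ^ 2)⁻¹ (sub (r ^ 2) h) = (sub (r ^ 2) h).comp (C (r ^ 2) * X) := by
      unfold sub
      rw [inv_inv]
    rw [← h2, h1]
  rw [e]
  exact H

end fld

variable {F : Type} [Field F] [NumberField F]

theorem cl_map {E : Type} [Field E] (φ : F →+* E) {f : F[X]} {h : F[X]} {r : F} (hf : f.Monic)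
    (h3 : f.natDegree = 3) (hr : r ≠ 0) (H : Cl E (f.map φ) (h.map φ)) :
    Cl E ((f.scaleRoots (r ^ 2)).map φ) ((sub (r ^ 2) h).map φ) := by
  have e1 : (f.scaleRoots (r ^ 2)).map φ = (f.map φ).scaleRoots ((φ r) ^ 2) := by
    rw [map_scaleRoots, map_pow]
    rw [hf.leadingCoeff, map_one]
    exact one_ne_zero
  have e2 : (sub (r ^ 2) h).map φ = sub ((φ r) ^ 2) (h.map φ) := by
    unfold sub
    rw [Polynomial.map_comp, Polynomial.map_mul, map_C, map_X, map_inv₀, map_pow]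
  rw [e1, e2]
  exact cl_twist (hf.map φ) (by rw [hf.natDegree_map, h3]) ((map_ne_zero φ).2 hr) H

theorem fF_scale {f : (𝓞 F)[X]} (hm : f.Monic) (D : 𝓞 F) :
    fF (f.scaleRoots D) = (fF f).scaleRoots (D : F) := by
  unfold fF
  rw [map_scaleRoots]
  rw [hm.leadingCoeff, map_one]
  exact one_ne_zero

theorem fF_scale2 {f : (𝓞 F)[X]} (hm : f.Monic) (δ : 𝓞 F) :
    fF (f.scaleRoots (δ ^ 2)) = (fF f).scaleRoots ((δ : F) ^ 2) := by
  have h1 : ((δ ^ 2 : 𝓞 F) : F) = (δ : F) ^ 2 := map_pow (algebraMap (𝓞 F) F) δ 2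
  rw [fF_scale hm, h1]

theorem selH_twist {f : (𝓞 F)[X]} (hm : f.Monic) (h3 : f.natDegree = 3) {δ : 𝓞 F} (hδ : (δ : F) ≠ 0)
    {h : F[X]} (H : SelH f h) : SelH (f.scaleRoots (δ ^ 2)) (sub ((δ : F) ^ 2) h) := by
  have hm' : (fF f).Monic := hm.map _
  have h3' : (fF f).natDegree = 3 := by
    unfold fF
    rw [hm.natDegree_map, h3]
  have hD : ((δ : F) ^ 2) ≠ 0 := pow_ne_zero _ hδ
  have e0 := fF_scale2 hm δ
  obtain ⟨a1, a2, a3, a4⟩ := H
  unfold SelH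
  rw [e0]
  refine ⟨?_, ?_, ?_, ?_⟩
  · rw [scale_eq hD h3']
    have h5 : IsUnit (C (((δ : F) ^ 2) ^ 3) : F[X]) := isUnit_C.2 (pow_ne_zero _ hD).isUnit
    rw [isCoprime_mul_unit_left_right h5]
    obtain ⟨u, v, huv⟩ := a1
    refine ⟨sub ((δ : F) ^ 2) u, sub ((δ : F) ^ 2) v, ?_⟩
    rw [← sub_mul, ← sub_mul]
    unfold sub
    rw [← add_comp, huv, one_comp]
  · obtain ⟨e, he⟩ := exists_equiv (fF f) hD h3'
    rw [← he, Algebra.norm_eq_of_algEquiv]
    exact a2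
  · intro w
    have h5 := a3 w
    unfold ClF at h5 ⊢
    exact cl_map (algebraMap F (w.adicCompletion F)) hm' h3' hδ h5
  · intro σ
    exact cl_map σ hm' h3' hδ (a4 σ)

theorem selN_twist {f : (𝓞 F)[X]} (hm : f.Monic) (h3 : f.natDegree = 3) (ε : (𝓞 F)ˣ) {N : ℕ}
    (H : SelN f N) : SelN (f.scaleRoots ((ε : 𝓞 F) ^ 2)) N := by
  have hm' : (fF f).Monic := hm.map _
  have h3' : (fF f).natDegree = 3 := by
    unfold fF
    rw [hm.natDegree_map, h3]
  have hε : (((ε : 𝓞 F)) : F) ≠ 0 := by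
    have := ε.ne_zero
    exact_mod_cast this
  have hε' : ((((ε⁻¹ : (𝓞 F)ˣ) : 𝓞 F)) : F) ≠ 0 := by
    have := (ε⁻¹).ne_zero
    exact_mod_cast this
  have hinv : ((((ε⁻¹ : (𝓞 F)ˣ) : 𝓞 F)) : F) = (((ε : 𝓞 F)) : F)⁻¹ := by
    refine eq_inv_of_mul_eq_one_left ?_
    have h1 := congrArg (algebraMap (𝓞 F) F) (Units.inv_mul ε)
    rw [map_mul, map_one] at h1
    exact h1
  have hD : (((ε : 𝓞 F) : F) ^ 2) ≠ 0 := pow_ne_zero _ hε
  have e0 := fF_scale2 hm (ε : 𝓞 F)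
  obtain ⟨e, he⟩ := exists_equiv (fF f) hD h3'
  have hsq : ∀ p : F[X], IsSquare (AdjoinRoot.mk (fF (f.scaleRoots ((ε : 𝓞 F) ^ 2)))
      (sub (((ε : 𝓞 F) : F) ^ 2) p)) ↔ IsSquare (AdjoinRoot.mk (fF f) p) := by
    intro p
    rw [e0, ← he]
    constructor
    · rintro ⟨y, hy⟩
      refine ⟨e.symm y, ?_⟩
      apply e.injective
      rw [hy, map_mul, AlgEquiv.apply_symm_apply]
    · rintro ⟨y, hy⟩
      exact ⟨e y, by rw [hy, map_mul]⟩
  have hinj : Function.Injective (sub (((ε : 𝓞 F) : F) ^ 2)) := by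
    intro p q hpq
    rw [← sub_sub hD p, ← sub_sub hD q, hpq]
  obtain ⟨R, hR1, hR2, hR3, hR4⟩ := H
  refine ⟨R.image (sub (((ε : 𝓞 F) : F) ^ 2)), ?_, ?_, ?_, ?_⟩
  · rw [Finset.card_image_of_injective R hinj, hR1]
  · intro h hh
    rw [Finset.mem_image] at hh
    obtain ⟨h, hh, rfl⟩ := hh
    exact selH_twist hm h3 hε (hR2 h hh)
  · intro h hh k hk hne
    rw [Finset.mem_image] at hh hk
    obtain ⟨h, hh, rfl⟩ := hh
    obtain ⟨k, hk, rfl⟩ := hk
    rw [← sub_mul, hsq]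
    exact hR3 h hh k hk fun H => hne (by rw [H])
  · intro h hh
    have h6 : (f.scaleRoots ((ε : 𝓞 F) ^ 2)).Monic := (monic_scaleRoots_iff _).2 hm
    have h7 : (f.scaleRoots ((ε : 𝓞 F) ^ 2)).natDegree = 3 := by rw [natDegree_scaleRoots, h3]
    have h8 := selH_twist h6 h7 hε' hh
    have h9 : (f.scaleRoots ((ε : 𝓞 F) ^ 2)).scaleRoots (((ε⁻¹ : (𝓞 F)ˣ) : 𝓞 F) ^ 2) = f := by
      rw [← scaleRoots_mul, ← mul_pow, Units.mul_inv, one_pow, scaleRoots_one]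
    rw [h9, hinv, inv_pow] at h8
    obtain ⟨k, hk, hs⟩ := hR4 _ h8
    refine ⟨_, Finset.mem_image_of_mem _ hk, ?_⟩
    rw [← hsq, sub_mul, sub_sub' hD] at hs
    exact hs

theorem irr_scale {K : Type} [Field K] {p : K[X]} {D : K} (hD : D ≠ 0) (hp : Irreducible p) :
    Irreducible (p.scaleRoots D) := by
  have hp0 : p.scaleRoots D ≠ 0 := scaleRoots_ne_zero hp.ne_zero D
  constructor
  · intro hu
    apply hp.not_isUnit
    rw [isUnit_iff_degree_eq_zero] at hu ⊢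
    rwa [degree_scaleRoots] at hu
  · intro a b hab
    have h1 : p = a.scaleRoots D⁻¹ * b.scaleRoots D⁻¹ := by
      rw [← mul_scaleRoots_of_noZeroDivisors, ← hab, ← scaleRoots_mul, mul_inv_cancel₀ hD,
        scaleRoots_one]
    rcases hp.isUnit_or_isUnit h1 with h | h
    · left
      rw [isUnit_iff_degree_eq_zero] at h ⊢
      rwa [degree_scaleRoots] at h
    · right
      rw [isUnit_iff_degree_eq_zero] at h ⊢
      rwa [degree_scaleRoots] at h

theorem cubic_scale (A B D : 𝓞 F) : (X ^ 3 + C A * X + C B : (𝓞 F)[X]).scaleRoots D =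
    X ^ 3 + C (D ^ 2 * A) * X + C (D ^ 3 * B) := by
  have hd : (X ^ 3 + C A * X + C B : (𝓞 F)[X]).natDegree = 3 := by compute_degree!
  ext n
  rw [coeff_scaleRoots, hd]
  simp only [coeff_add, coeff_X_pow, coeff_C_mul, coeff_X, coeff_C]
  rcases n with _ | _ | _ | _ | n
  · simp
    ring
  · simp
    ring
  · simp
  · simp
  · simp

/-- **UTW** -/
theorem t_UTW : S_UTW := by
  intro F _ _ A B ε N hirr hS
  have hm : (X ^ 3 + C A * X + C B : (𝓞 F)[X]).Monic := by monicity!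
  have hd : (X ^ 3 + C A * X + C B : (𝓞 F)[X]).natDegree = 3 := by compute_degree!
  have e : (X ^ 3 + C ((ε : 𝓞 F) ^ 4 * A) * X + C ((ε : 𝓞 F) ^ 6 * B) : (𝓞 F)[X]) =
      (X ^ 3 + C A * X + C B : (𝓞 F)[X]).scaleRoots ((ε : 𝓞 F) ^ 2) := by
    rw [cubic_scale, ← pow_mul, ← pow_mul]
  rw [e]
  refine ⟨?_, selN_twist hm hd ε hS⟩
  rw [fF_scale2 hm]
  refine irr_scale (pow_ne_zero _ ?_) hirr
  have := ε.ne_zero
  exact_mod_cast this

end Pool.Agent.L0h91.SP
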